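import Pool.Agent.H35J.GS.IsoA

/-!
# The joint moments of the coefficients of the `L`-polynomials for almost all hyperelliptic Jacobians of any genus

Let `C_t` be the hyperelliptic curve `y ^ 2 = X ^ D + t_(D-1) X ^ (D-1) + … + t_0`, `D = 2 g + 1` or `2 g + 2`, and let
`a_i(p)` be the coefficients of the normalised Euler factors of its Jacobian. For almost all `t` the joint moments of
`a_1(p), a_2(p), …` of weight (`a_i` having the weight `i`) at most `D / 2` over the good primes `p` in all intervals `(Y, Y']` (or in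
the part of them in any given set of primes) are the moments for the Haar measure of `USp(2 g)`, which is the Sato-Tate group of
`C_t` for almost all `t`, with square root cancellation up to `Y' ^ (ε / 2)`. All the constants are independent of the genus `g`.

Proof. The values of a random monic polynomial of degree `D` at closed points of total degree at most `D` are independent and
uniformly distributed. This gives the moments of the traces of the powers of the Frobenius over all `t` modulo `p` up to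
`O (p ^ (-1 / 2))`, uniformly in `D`: they are those of independent normal variables with the means `-1` (for even powers) or `0` and the
variances `j`. The Chinese remainder theorem gives the second moments of the sums over primes, and the inequality of Rademacher and
Menshov makes them uniform in the intervals. The moments for the Haar measure are determined from the loop equations (integration by
parts on `USp(2 g)`): those of the normal variables satisfy the same equations, and the solution of given weight at most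
`2 g + 1` is unique. Finally Newton's identities express the coefficients in terms of the traces.
-/

set_option autoImplicit false

namespace Pool.Agent.Results.MP_753a9c_nt.JointMoments

open Finset Polynomial MeasureTheory

/-- The polynomial `X ^ D + t_(D-1) X ^ (D-1) + … + t_0` over the ring `R`. -/
noncomputable def poly (R : Type) [CommRing R] {D : ℕ} (t : Fin D → ℤ) : R[X] :=
  X ^ D + ∑ i : Fin D, C (t i : R) * X ^ (i : ℕ)

open Classical in
/-- The number of the points over the field with `p ^ k` elements (`p` a prime number) of the smooth projective curve with the affine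
equation `y ^ 2 = X ^ D + t_(D-1) X ^ (D-1) + … + t_0`: the solutions of the equation, and one point at infinity if `D` is odd, two if `D`
is even. -/
noncomputable def points (p k : ℕ) {D : ℕ} (t : Fin D → ℤ) : ℕ :=
  if h : p.Prime then
    haveI : Fact p.Prime := ⟨h⟩
    Nat.card {P : GaloisField p k × GaloisField p k // P.2 ^ 2 = (poly (GaloisField p k) t).eval P.1} + if Odd D then 1 else 2
  else 0

/-- `p` is an odd prime number and the polynomial is squarefree modulo `p`, so that the curve (of genus `g`, `D = 2 g + 1` or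
`2 g + 2`) is smooth modulo `p`. -/
def Good {D : ℕ} (t : Fin D → ℤ) (p : ℕ) : Prop := p.Prime ∧ p ≠ 2 ∧ Squarefree (poly (ZMod p) t)

/-- The trace `s_k(p)` of the `k`-th power of the normalised Frobenius: if the normalised Euler factor is `∏ (1 - α_j T)`, this is
`∑ α_j ^ k = (p ^ k + 1 - #C(F_(p ^ k))) / p ^ (k / 2)`. -/
noncomputable def s {D : ℕ} (t : Fin D → ℤ) (p k : ℕ) : ℝ := ((p : ℝ) ^ k + 1 - points p k t) / Real.sqrt p ^ k

/-- The coefficients of the polynomial `∏ (1 - α_j T)` in terms of the power sums `σ_k = ∑ α_j ^ k`, by Newton's identities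
`(i + 1) a_(i+1) = - ∑_(j ≤ i) σ_(j+1) a_(i-j)`, `a_0 = 1`. -/
noncomputable def newton (σ : ℕ → ℝ) : ℕ → ℝ
  | 0 => 1
  | i + 1 => -(∑ j : Fin (i + 1), σ (j + 1) * newton σ (i - j)) / (i + 1)

/-- The coefficient `a_i(p)` of the normalised Euler factor of the Jacobian at the good prime `p`. -/
noncomputable def a {D : ℕ} (t : Fin D → ℤ) (i p : ℕ) : ℝ := newton (s t p) i

open Classical in
/-- The good primes `p` in the set `S` with `Y < p ≤ Y'`. -/
noncomputable def primesIn {D : ℕ} (t : Fin D → ℤ) (S : Set ℕ) (Y Y' : ℕ) : Finset ℕ := (Ioc Y Y').filter fun p => p ∈ S ∧ Good t p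

/-- The integer vectors `t` with `N i ≤ t i < N i + L i`. -/
noncomputable def box {D : ℕ} (N : Fin D → ℤ) (L : Fin D → ℕ) : Finset (Fin D → ℤ) := Fintype.piFinset fun i => Ico (N i) (N i + L i)

/-- For all sets `S` of primes, all boxes with sides at least `T (D + 1)` and all `X₀ ≥ 1` the vectors `t` of the box have the property
`P t S Y Y'` for all `Y ≤ Y'` with `X₀ ≤ Y' ≤ T ^ κ`, with at most `C X₀ ^ (-ε / 2)` times the volume of the box exceptions. -/
def AlmostAll (D : ℕ) (ε κ C : ℝ) (P : (Fin D → ℤ) → Set ℕ → ℕ → ℕ → Prop) : Prop :=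
  ∀ (S : Set ℕ) (N : Fin D → ℤ) (L : Fin D → ℕ) (T : ℝ), 0 < T → (∀ i, T * (D + 1) ≤ L i) → ∀ X₀ : ℕ, 1 ≤ X₀ →
    ∃ E : Finset (Fin D → ℤ), E ⊆ box N L ∧ (E.card : ℝ) ≤ C * (X₀ : ℝ) ^ (-(ε / 2)) * ∏ i, (L i : ℝ) ∧
      ∀ t ∈ box N L, t ∉ E → ∀ Y Y' : ℕ, Y ≤ Y' → X₀ ≤ Y' → (Y' : ℝ) ≤ T ^ κ → P t S Y Y'

/-- The compact symplectic group. -/
def USp (g : ℕ) : Set (Matrix (Fin g ⊕ Fin g) (Fin g ⊕ Fin g) ℂ) :=
  {U | U.conjTranspose * U = 1 ∧ U.transpose * Matrix.J (Fin g) ℂ * U = Matrix.J (Fin g) ℂ}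

/-- The Haar probability measure on `USp(2 g)`, as a measure on the Borel sets of the space of the matrices. -/
structure IsHaar (g : ℕ) (μ : @Measure (Matrix (Fin g ⊕ Fin g) (Fin g ⊕ Fin g) ℂ) (borel _)) : Prop where
  prob : IsProbabilityMeasure μ
  supp : ∀ᵐ U ∂μ, U ∈ USp g
  inv : ∀ V ∈ USp g, @Measure.map _ _ (borel _) (borel _) (fun U => V * U) μ = μ

/-- The coefficient `Φ_i(U)` of `T ^ i` in `det (1 - T U)` (a real number for `U` in `USp(2 g)`). -/
noncomputable def Φ {g : ℕ} (i : ℕ) (U : Matrix (Fin g ⊕ Fin g) (Fin g ⊕ Fin g) ℂ) : ℝ := (U.charpolyRev.coeff i).re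

lemma newton_eq (σ : ℕ → ℝ) (i : ℕ) : newton σ i = H35GS.coef σ i := by
  induction i using Nat.strong_induction_on with
  | _ i ih =>
    rcases i with _ | i
    · rw [H35GS.coef_zero, newton]
    · rw [H35GS.coef_succ, newton]
      congr 2
      exact sum_congr rfl fun j _ => by rw [ih (i - j) (by omega)]

lemma haar_of {g : ℕ} {μ : @Measure (Matrix (Fin g ⊕ Fin g) (Fin g ⊕ Fin g) ℂ) (borel _)} (h : IsHaar g μ) : H35GS.Haar μ where
  prob := h.prob
  supp := by
    filter_upwards [h.supp] with U hU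
    exact ⟨hU.1, hU.2⟩
  inv := fun V hV => h.inv V ⟨hV.un, hV.sy⟩

lemma poly_eq (p : ℕ) {D : ℕ} (t : Fin D → ℤ) : poly (ZMod p) t = H35GS.fpol fun i => (t i : ZMod p) := rfl

lemma eval_poly (p k : ℕ) [Fact p.Prime] {D : ℕ} (t : Fin D → ℤ) (x : GaloisField p k) :
    (poly (GaloisField p k) t).eval x = aeval x (H35GS.fpol fun i => (t i : ZMod p)) := by
  unfold poly H35GS.fpol
  simp [eval_finsetSum]

lemma s_eq {D : ℕ} (t : Fin D → ℤ) (p j : ℕ) (hp : p.Prime) (hp2 : p ≠ 2) : s t p (j + 1) = H35GS.sv D j p fun i => (t i : ZMod p) := by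
  classical
  have : Fact p.Prime := ⟨hp⟩
  have hring : ringChar (GaloisField p (j + 1)) ≠ 2 := by
    rw [ringChar.eq (GaloisField p (j + 1)) p]
    exact hp2
  have h1 : (Nat.card {P : GaloisField p (j + 1) × GaloisField p (j + 1) // P.2 ^ 2 = (poly (GaloisField p (j + 1)) t).eval P.1} : ℝ) =
      (p : ℝ) ^ (j + 1) + ∑ x : GaloisField p (j + 1), H35GS.qch (aeval x (H35GS.fpol fun i => (t i : ZMod p))) := by
    have h2 : Nat.card {P : GaloisField p (j + 1) × GaloisField p (j + 1) // P.2 ^ 2 = (poly (GaloisField p (j + 1)) t).eval P.1} =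
        ∑ x : GaloisField p (j + 1), Nat.card {y : GaloisField p (j + 1) // y ^ 2 = (poly (GaloisField p (j + 1)) t).eval x} := by
      rw [← Nat.card_sigma]
      exact Nat.card_congr ⟨fun P => ⟨P.1.1, ⟨P.1.2, P.2⟩⟩, fun P => ⟨(P.1, P.2.1), P.2.2⟩, fun _ => rfl, fun _ => rfl⟩
    rw [h2]
    push_cast
    have h3 : ∀ x : GaloisField p (j + 1), (Nat.card {y : GaloisField p (j + 1) // y ^ 2 = (poly (GaloisField p (j + 1)) t).eval x} : ℝ) =
        1 + H35GS.qch (aeval x (H35GS.fpol fun i => (t i : ZMod p))) := by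
      intro x
      rw [H35GS.card_sqrt hring, eval_poly]
    rw [sum_congr rfl fun x _ => h3 x, sum_add_distrib, sum_const, card_univ, H35GS.card_GF (j + 1) (Nat.succ_ne_zero j), nsmul_eq_mul, mul_one]
    push_cast
    rfl
  rw [H35GS.sv_eq]
  unfold s points H35GS.dl
  rw [dif_pos hp]
  push_cast
  rw [h1]
  congr 1
  split_ifs <;> ring

lemma primesIn_eq {D : ℕ} (t : Fin D → ℤ) (S : Set ℕ) (Y Y' : ℕ) : primesIn t S Y Y' = H35GS.GP D S Y Y' t := by
  classical
  ext p
  have h1 : p ∈ primesIn t S Y Y' ↔ p ∈ Ioc Y Y' ∧ p ∈ S ∧ Good t p := mem_filter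
  have h2 : p ∈ H35GS.GP D S Y Y' t ↔ p ∈ H35GS.IV Y Y' ∧ p ∈ S ∧ p ≠ 2 ∧ Squarefree (H35GS.fpol fun i => (t i : ZMod p)) := mem_filter
  have h3 : p ∈ H35GS.IV Y Y' ↔ p ∈ Ioc Y Y' ∧ p.Prime := mem_filter
  have h4 : Good t p ↔ p.Prime ∧ p ≠ 2 ∧ Squarefree (H35GS.fpol fun i => (t i : ZMod p)) := Iff.rfl
  rw [h1, h2, h3, h4]
  tauto

lemma good_of {D : ℕ} {t : Fin D → ℤ} {S : Set ℕ} {Y Y' p : ℕ} (h : p ∈ primesIn t S Y Y') : p.Prime ∧ p ≠ 2 := by
  classical
  have h1 : p ∈ primesIn t S Y Y' ↔ p ∈ Ioc Y Y' ∧ p ∈ S ∧ Good t p := mem_filter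
  have h2 := (h1.1 h).2.2
  exact ⟨h2.1, h2.2.1⟩

/-- **The joint moments.** Let `k_1, …, k_r ≥ 0`. There are `κ > 0` and `C` such that for all `g` and `D ∈ {2 g + 1, 2 g + 2}` with
`D ≥ 2 ∑ i k_i`, for almost all `t` and all Haar measures `μ` the sum of `∏ a_i(p) ^ k_i` over the `n` good primes of `S` in `(Y, Y']` differs from
`n ∫ ∏ Φ_i(U) ^ k_i dμ` by at most `C Y' ^ (1 / 2 + ε / 2)`. -/
theorem result (r : ℕ) (k : Fin r → ℕ) (ε : ℝ) (hε : 0 < ε) (hε1 : ε ≤ 1) :
    ∃ κ C : ℝ, 0 < κ ∧ ∀ g D : ℕ, (D = 2 * g + 1 ∨ D = 2 * g + 2) → 2 * ∑ i : Fin r, ((i : ℕ) + 1) * k i ≤ D →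
      AlmostAll D ε κ C fun t S Y Y' => ∀ μ, IsHaar g μ →
        |∑ p ∈ primesIn t S Y Y', ∏ i : Fin r, a t (i + 1) p ^ k i -
          (primesIn t S Y Y').card * ∫ U, ∏ i : Fin r, Φ (i + 1) U ^ k i ∂μ| ≤ C * (Y' : ℝ) ^ (1 / 2 + ε / 2) := by
  classical
  obtain ⟨κ, hκ, C, hC, h⟩ := H35GS.emp_poly (H35GS.mon_wt k) ε hε hε1
  refine ⟨κ, C, hκ, fun g D hgD hD S N L T hT hL X₀ hX₀ => ?_⟩
  obtain ⟨E, hE1, hE2, hE3⟩ := h D hD S N L T hT hL X₀ hX₀
  refine ⟨E, hE1, hE2, fun t ht htE Y Y' hYY hY hYT μ hμ => ?_⟩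
  have h1 := hE3 t ht htE Y Y' hYY hY hYT
  have h2 := H35GS.haar_poly (haar_of hμ) (H35GS.mon_wt k) (by omega)
  rw [← primesIn_eq, sum_sub_distrib, sum_const, nsmul_eq_mul, ← h2] at h1
  have h3 : ∑ p ∈ primesIn t S Y Y', ∏ i : Fin r, a t (i + 1) p ^ k i =
      ∑ p ∈ primesIn t S Y Y', MvPolynomial.eval (fun j => H35GS.sv D j p fun i => (t i : ZMod p)) (H35GS.mon k) := by
    refine sum_congr rfl fun p hp => ?_
    rw [H35GS.mon_eval]
    refine prod_congr rfl fun i _ => ?_
    unfold a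
    rw [newton_eq, H35GS.coef_congr ((i : ℕ) + 1) (fun m _ => ?_) _ le_rfl]
    rw [s_eq t p m (good_of hp).1 (good_of hp).2, Nat.add_sub_cancel]
  have h4 : ∫ U, ∏ i : Fin r, Φ (i + 1) U ^ k i ∂μ = ∫ U, MvPolynomial.eval (fun j => (U ^ (j + 1)).trace.re) (H35GS.mon k) ∂μ := by
    refine integral_congr_ae ?_
    filter_upwards [(haar_of hμ).supp] with U hU
    rw [H35GS.mon_eval]
    refine prod_congr rfl fun i _ => ?_
    unfold Φ
    rw [H35GS.coeff_rev hU, H35GS.coef_congr ((i : ℕ) + 1) (fun m _ => ?_) _ le_rfl]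
    rw [Nat.add_sub_cancel]
  rw [h3, h4]
  exact h1

end Pool.Agent.Results.MP_753a9c_nt.JointMoments
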