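import Pool.Agent.Helper43z.MV.Law

/-!
# The Sato-Tate conjecture for abelian varieties over `ℚ` is equivalent to the statement on the mean values

Let `𝒞` be a class of abelian varieties over `ℚ` which contains with `A` the products of the Weil restrictions of `A` from the subfields
of cyclic fields (for instance the class of all abelian varieties over `ℚ`). The following are equivalent:

* for all `A` in `𝒞` and all `i` the numbers `a_i(A)(p)` are equidistributed (Question 1 for `𝒞`);
* for all `A` in `𝒞` and all `i` the mean value of `a_i(A)(p)` (the normalised trace of Frobenius on `H^i(A)`, up to the sign) is the mean value of `Φ_i` for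
  the Haar measure of `ST(A)`;
* for all `A` in `𝒞` the whole normalised Euler factors are equidistributed, i.e. all the `a_i(A)(p)` jointly.

The implication from the second to the third statement holds for each `A` and in each weight separately: the mean values of `a_i(B)(p)` for a
fixed `i` and the products `B` of the Weil restrictions of `A` determine all the joint moments of weight `i` of the `a_j(A)(p)`.

Proof. Let `F/ℚ` be cyclic of degree `N`, linearly disjoint from the field of definition of the components of `ST(A)`, and let `B` be the product of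
the powers `Res (A_(F_d)) ^ (m_d)`, where `F_d` is the subfield of degree `d ∣ N`. If `c` is the class of the Frobenius in `Gal(F/ℚ) = ℤ/N` and `s_r(A)` are the power
sums of the eigenvalues, then `s_r(B) = w(gcd(r c, N)) s_r(A)` with `w(e) = ∑_(d ∣ e) d m_d`. The numbers `w(e)`, `e ∣ N`, are independent by Möbius inversion. So the mean
value of `a_i(B)(p)` is a polynomial in them and each of its coefficients converges. For `N = (i!)^(t+2)` and a divisor `e` of `(i!)^t` the coefficient of
`∏_r w(r e) ^ (λ_r)` contains only the primes with `gcd(c, N) = e` and only the monomial `∏ s_r(A) ^ (λ_r)`, with a coefficient different from `0`. Since the other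
classes `c` have a density tending to `0` as `t → ∞`, the moments of the power sums converge, and the theorem of Stone and Weierstrass applies.
-/

set_option autoImplicit false

namespace Pool.Agent.Results.MP_753a9c_nt.MeanValuesSuffice

open Finset Polynomial Filter Topology MeasureTheory

/-- The data of an abelian variety over `ℚ` which enter in the conjecture. -/
structure AbVar where
  /-- the dimension -/
  g : ℕ
  /-- the Sato-Tate group -/
  ST : Type
  [group : Group ST]
  [top : TopologicalSpace ST]
  [topGroup : IsTopologicalGroup ST]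
  [compact : CompactSpace ST]
  /-- the inclusion of the Sato-Tate group in the compact symplectic group `USp(2 g)` -/
  ρ : ST →* Matrix (Fin g ⊕ Fin g) (Fin g ⊕ Fin g) ℂ
  injective : Function.Injective ρ
  continuous : Continuous ρ
  unitary : ∀ k, (ρ k).conjTranspose * ρ k = 1
  symplectic : ∀ k, (ρ k).transpose * Matrix.J (Fin g) ℂ * ρ k = Matrix.J (Fin g) ℂ
  /-- the primes of bad reduction -/
  bad : Finset ℕ
  /-- an element of the conjugacy class of `ST(A)` attached to the good prime `p`: `det (1 - T ρ(frob p))` is the normalised Euler factor -/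
  frob : ℕ → ST

attribute [instance] AbVar.group AbVar.top AbVar.topGroup AbVar.compact

/-- `Φ_i(k)` is the coefficient of `T ^ i` in `det (1 - T ρ(k))`, so that `a_i(A)(p) = Φ_i(frob p)`. -/
noncomputable def AbVar.Φ (A : AbVar) (i : ℕ) (k : A.ST) : ℝ := ((A.ρ k).charpolyRev.coeff i).re

/-- The integral over `ST(A)` for the Haar probability measure. -/
noncomputable def AbVar.haar (A : AbVar) (F : A.ST → ℝ) : ℝ :=
  letI : MeasurableSpace A.ST := borel A.ST
  haveI : BorelSpace A.ST := ⟨rfl⟩
  ∫ k, F k ∂(Measure.haarMeasure (⊤ : TopologicalSpace.PositiveCompacts A.ST))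

/-- The primes of good reduction up to `x`. -/
def AbVar.good (A : AbVar) (x : ℕ) : Finset ℕ := (range (x + 1)).filter fun p => p.Prime ∧ p ∉ A.bad

/-- The average of the values of `F` at the classes of the good primes `p ≤ x` tends to the integral of `F` over `ST(A)` as `x → ∞`. -/
def AbVar.MeanValue (A : AbVar) (F : A.ST → ℝ) : Prop :=
  Tendsto (fun x => (∑ p ∈ A.good x, F (A.frob p)) / (A.good x).card) atTop (𝓝 (A.haar F))

/-- The classes `a p` modulo `N` are equidistributed among the primes `p`. -/
def Equidistributed {N : ℕ} (a : ℕ → ZMod N) : Prop :=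
  ∀ c : ZMod N, Tendsto (fun x : ℕ => (((range (x + 1)).filter fun p => p.Prime ∧ a p = c).card : ℝ) /
    ((range (x + 1)).filter Nat.Prime).card) atTop (𝓝 (1 / N))

/-- Let `F/ℚ` be cyclic of degree `N`, `F_d` its subfield of degree `d`, and let `P(T)` be the normalised Euler factor of `A` at the prime `p` with the Frobenius class
`c` in `Gal(F/ℚ) = ℤ/N`. This is the normalised Euler factor of the product of the `m_d`-th powers of the Weil restrictions of `A` from `F_d`, `d ∣ N`: the factor
of the restriction from `F_d` is the product of the `P(χ(c) T)` over the characters `χ` of `Gal(F_d/ℚ)`. -/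
noncomputable def resFactor (P : ℂ[X]) (N : ℕ) (m : ℕ → ℕ) (c : ZMod N) : ℂ[X] :=
  ∏ d ∈ N.divisors, (∏ j ∈ range d, P.comp (C (Complex.exp (2 * Real.pi * Complex.I * j * c.val / d)) * X)) ^ m d

/-- `B` has the properties of the product of the `m_d`-th powers of the Weil restrictions of `A` from the fields `F_d` (`d ∣ N`, `F/ℚ` cyclic of degree `N` linearly
disjoint from the field of definition of the components of `ST(A)`, `a p` the Frobenius class at `p`): the Sato-Tate group is the image of `ST(A) × Gal(F/ℚ)`, and the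
normalised Euler factors at almost all primes are the expected ones. -/
structure IsRes (A : AbVar) (N : ℕ) (a : ℕ → ZMod N) (m : ℕ → ℕ) (B : AbVar) : Prop where
  group : ∃ π : A.ST × Multiplicative (ZMod N) →* B.ST, Function.Surjective π ∧ (∀ c, Continuous fun k => π (k, c)) ∧
    ∀ k c, (B.ρ (π (k, c))).charpolyRev = resFactor (A.ρ k).charpolyRev N m (Multiplicative.toAdd c)
  frob : ∃ E : Finset ℕ, ∀ p, p.Prime → p ∉ E →
    (B.ρ (B.frob p)).charpolyRev = resFactor (A.ρ (A.frob p)).charpolyRev N m (a p)

/-- For each `N` there is a cyclic field of degree `N` such that the mean value of `a_i(B)(p)` is the expected one for all the products `B` of Weil restrictions of `A`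
from its subfields. -/
def AbVar.MeanValuesOfRestrictions (A : AbVar) (i : ℕ) : Prop :=
  ∀ N : ℕ, N ≠ 0 → ∃ a : ℕ → ZMod N, Equidistributed a ∧ ∀ m : ℕ → ℕ, ∃ B : AbVar, IsRes A N a m B ∧ B.MeanValue (B.Φ i)

/-- The class `𝒞` contains with `A` the products of the Weil restrictions of `A` from the subfields of a cyclic field of any given degree. -/
def IsClosedUnderRestrictions (𝒞 : Set AbVar) : Prop :=
  ∀ A ∈ 𝒞, ∀ N : ℕ, N ≠ 0 → ∃ a : ℕ → ZMod N, Equidistributed a ∧ ∀ m : ℕ → ℕ, ∃ B ∈ 𝒞, IsRes A N a m B

open Pool.Agent.Helper43z.MV in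
lemma meanValue_iff (A : AbVar) (F : A.ST → ℝ) : A.MeanValue F ↔ HM (fun p => F (A.frob p)) (haarInt A.ST F) :=
  tendsto_av_iff A.bad (fun p => F (A.frob p)) _

open Pool.Agent.Helper43z.MV in
lemma isUSp (A : AbVar) (k : A.ST) : IsUSp (A.ρ k) := ⟨A.unitary k, A.symplectic k⟩

open Pool.Agent.Helper43z.MV in
lemma equi_HM {N : ℕ} {a : ℕ → ZMod N} (h : Equidistributed a) (c : ZMod N) : HM (fun p => if a p = c then 1 else 0) (1 / N) := by
  refine (h c).congr fun x => ?_
  unfold av PP
  congr 1
  · rw [Finset.sum_ite, Finset.sum_const_zero, add_zero, Finset.sum_const, nsmul_eq_mul, mul_one, Finset.filter_filter]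
    congr 2
    ext p
    simp
  · congr 2
    ext p
    simp

open Pool.Agent.Helper43z.MV in
lemma meanRes_of (A : AbVar) {i : ℕ} (h : A.MeanValuesOfRestrictions i) : MeanRes A.ρ A.frob i := by
  intro N hN
  have : NeZero N := ⟨hN⟩
  obtain ⟨a, ha, h1⟩ := h N hN
  refine ⟨a, equi_HM ha, fun m => ?_⟩
  obtain ⟨B, ⟨⟨π, hs, hc, hπ⟩, E, hE⟩, hB⟩ := h1 m
  rw [meanValue_iff] at hB
  have h2 := int_res A.continuous (isUSp A) B.continuous (isUSp B) π hc hs m hπ i
  have h3 : haarInt B.ST (B.Φ i) = (∑ c ∈ range N, TT i N c m fun l => haarInt A.ST fun k => mo (sg A.ρ k) l) / N := h2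
  rw [h3] at hB
  refine hB.congr E fun p hp hpE => ?_
  unfold AbVar.Φ
  rw [hE p hp hpE]
  rfl

open Pool.Agent.Helper43z.MV in
/-- one weight -/
lemma moments_of (A : AbVar) {i : ℕ} (h : A.MeanValuesOfRestrictions i) (l : ℕ →₀ ℕ) (hl : (l.sum fun j n => n * j) = i) :
    A.MeanValue fun k => l.prod fun j n => A.Φ j k ^ n := by
  rw [meanValue_iff]
  exact moments A.continuous (isUSp A) (by rw [hl]; exact meanRes_of A h)

open Pool.Agent.Helper43z.MV in
/-- the joint law -/
lemma joint_of (A : AbVar) (h : ∀ i, A.MeanValuesOfRestrictions i) {G : (ℕ → ℝ) → ℝ} (hG : Continuous G) :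
    A.MeanValue fun k => G fun i => A.Φ i k := by
  rw [meanValue_iff]
  refine joint A.continuous (isUSp A) (fun l => ?_) hG
  exact (meanValue_iff A _).1 (moments_of A (h _) l rfl)

/-- **Mean values suffice.** For each `A` and each `i` the mean values of `a_i(B)(p)` for the products `B` of Weil restrictions of `A` determine the joint moments of weight
`i` of the `a_j(A)(p)`. For every class `𝒞` closed under such products Question 1 for all `A ∈ 𝒞` and `i`, the statement on the mean values of the `a_i(A)(p)` for all `A ∈ 𝒞` and `i`,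
and the joint equidistribution of all the `a_i(A)(p)`, `i ≥ 0`, for all `A ∈ 𝒞` are equivalent. -/
theorem result :
    (∀ (A : AbVar) (i : ℕ), A.MeanValuesOfRestrictions i →
      ∀ l : ℕ →₀ ℕ, (l.sum fun j n => n * j) = i → A.MeanValue fun k => l.prod fun j n => A.Φ j k ^ n) ∧
    ∀ 𝒞 : Set AbVar, IsClosedUnderRestrictions 𝒞 →
      ((∀ A ∈ 𝒞, ∀ i, ∀ f : ℝ → ℝ, Continuous f → A.MeanValue fun k => f (A.Φ i k)) ↔ ∀ A ∈ 𝒞, ∀ i, A.MeanValue (A.Φ i)) ∧
      ((∀ A ∈ 𝒞, ∀ G : (ℕ → ℝ) → ℝ, Continuous G → A.MeanValue fun k => G fun i => A.Φ i k) ↔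
        ∀ A ∈ 𝒞, ∀ i, A.MeanValue (A.Φ i)) := by
  refine ⟨fun A i h l hl => moments_of A h l hl, fun 𝒞 h𝒞 => ?_⟩
  have key : (∀ A ∈ 𝒞, ∀ i, A.MeanValue (A.Φ i)) →
      ∀ A ∈ 𝒞, ∀ G : (ℕ → ℝ) → ℝ, Continuous G → A.MeanValue fun k => G fun i => A.Φ i k := by
    intro h A hA G hG
    refine joint_of A (fun i N hN => ?_) hG
    obtain ⟨a, ha, h1⟩ := h𝒞 A hA N hN
    refine ⟨a, ha, fun m => ?_⟩
    obtain ⟨B, hB, hAB⟩ := h1 m
    exact ⟨B, hAB, h B hB i⟩
  refine ⟨⟨fun h A hA i => h A hA i id continuous_id, fun h A hA i f hf => ?_⟩,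
    ⟨fun h A hA i => h A hA (fun v => v i) (continuous_apply i), key⟩⟩
  exact key h A hA (fun v => f (v i)) (hf.comp (continuous_apply i))

end Pool.Agent.Results.MP_753a9c_nt.MeanValuesSuffice
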