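import Pool.Agent.Helper36x.PN.Main2

/-!
# The Sato-Tate law of the coefficients of the `L`-polynomials for the Jacobians of almost all smooth plane curves of large degree

Let `C_t` be the plane curve of degree `d` whose equation has the integer coefficients `t`, a vector of `(d + 1) (d + 2) / 2` numbers, let
`g = (d - 1) (d - 2) / 2`, and let `a_i(p)` be the coefficients of the normalised Euler factors of its Jacobian at the primes `p` of good
reduction. We compare the numbers `a_i(p)`, `p` in an interval `(Y, Y']` (or in the part of it in any given set of primes), with the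
coefficients of the characteristic polynomials of the matrices in the compact group `USp(2 g)`, which is the Sato-Tate group of the Jacobian
of `C_t` for almost all `t`: the joint distribution function of `a_1(p), …, a_r(p)` agrees with that for the Haar measure up to `ε`
if `d ≥ d₀(r, ε)`, for almost all `t`, in all intervals with `Y' ≥ X₀` and at least `Y' ^ (1 / 2 + ε)` good primes; the proportion of the
exceptional curves is at most `C d X₀ ^ (-ε / 2)`, and all constants are independent of the degree `d`.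

Proof. The values of a random form of degree `d` at closed points of `P ^ 2` of total degree at most `d + 1` are independent and uniformly
distributed: the evaluations at `d + 1` different geometric points are linearly independent over the algebraic closure. This gives the
moments of the power sums of the Frobenius eigenvalues over all forms modulo `p` up to `O (p ^ (-1 / 2))`, uniformly in `d`: they are those of
independent normal variables with the means `-1` (for even powers) or `0` and the variances `j`; the centred number of the points is a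
linear combination of independent sums over the closed points of the different degrees. The singular forms are at most `9 d ^ 2 / p` of all.
The Chinese remainder theorem gives the second moments of the sums over primes, and the inequality of Rademacher and
Menshov makes them uniform in the intervals. The moments for the Haar measure are determined up to `O (1 / g)` from the loop equations.
The moment problem for the normal law is determinate, and Newton's identities express the coefficients in terms of the traces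
of the powers (the last three steps are the work of helper35 for hyperelliptic curves).
-/

set_option autoImplicit false

namespace Pool.Agent.Results.MP_753a9c_nt.PlaneCurves

open Finset MvPolynomial MeasureTheory
open Pool.Agent.Y722.HS (Mon form IsSmooth)
open scoped LinearAlgebra.Projectivization

/-- The number of the points over the field with `p ^ k` elements (`p` a prime number) of the plane curve `F_t = 0`, where `F_t` is the form
of degree `d` in three variables with the coefficients `t`. -/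
noncomputable def points (p k : ℕ) {d : ℕ} (t : Mon 2 d → ℤ) : ℕ :=
  open scoped Classical in
  if h : p.Prime then
    haveI : Fact p.Prime := ⟨h⟩
    Nat.card {P : ℙ (GaloisField p k) (Fin 3 → GaloisField p k) // aeval P.rep (form t) = 0}
  else 0

/-- `p` is a prime number and the curve (of genus `(d - 1) (d - 2) / 2`) is smooth over the algebraic closure of the field with `p` elements. -/
def Good {d : ℕ} (t : Mon 2 d → ℤ) (p : ℕ) : Prop :=
  p.Prime ∧ ∀ _ : Fact p.Prime, IsSmooth (map (algebraMap (ZMod p) (AlgebraicClosure (ZMod p))) (map (Int.castRingHom (ZMod p)) (form t)))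

/-- The trace `s_k(p)` of the `k`-th power of the normalised Frobenius: if the normalised Euler factor is `∏ (1 - α_j T)`, this is
`∑ α_j ^ k = (p ^ k + 1 - #C(F_(p ^ k))) / p ^ (k / 2)`. -/
noncomputable def s {d : ℕ} (t : Mon 2 d → ℤ) (p k : ℕ) : ℝ := ((p : ℝ) ^ k + 1 - points p k t) / Real.sqrt p ^ k

/-- The coefficients of the polynomial `∏ (1 - α_j T)` in terms of the power sums `σ_k = ∑ α_j ^ k`, by Newton's identities
`(i + 1) a_(i+1) = - ∑_(j ≤ i) σ_(j+1) a_(i-j)`, `a_0 = 1`. -/
noncomputable def newton (σ : ℕ → ℝ) : ℕ → ℝ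
  | 0 => 1
  | i + 1 => -(∑ j : Fin (i + 1), σ (j + 1) * newton σ (i - j)) / (i + 1)

/-- The coefficient `a_i(p)` of the normalised Euler factor of the Jacobian at the good prime `p`. -/
noncomputable def a {d : ℕ} (t : Mon 2 d → ℤ) (i p : ℕ) : ℝ := newton (s t p) i

open Classical in
/-- The good primes `p` in the set `S` with `Y < p ≤ Y'`. -/
noncomputable def primesIn {d : ℕ} (t : Mon 2 d → ℤ) (S : Set ℕ) (Y Y' : ℕ) : Finset ℕ := (Ioc Y Y').filter fun p => p ∈ S ∧ Good t p

/-- The integer vectors `t` with `N i ≤ t i < N i + L i`. -/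
noncomputable def box {d : ℕ} (N : Mon 2 d → ℤ) (L : Mon 2 d → ℕ) : Finset (Mon 2 d → ℤ) := Fintype.piFinset fun i => Ico (N i) (N i + L i)

/-- For all sets `S` of primes, all boxes with sides at least `T (d + 2) ^ 2` and all `X₀ ≥ 1` the vectors `t` of the box have the property
`P t S Y Y'` for all `Y ≤ Y'` with `X₀ ≤ Y' ≤ T ^ κ`, with at most `C d X₀ ^ (-ε / 2)` times the volume of the box exceptions. -/
def AlmostAll (d : ℕ) (ε κ C : ℝ) (P : (Mon 2 d → ℤ) → Set ℕ → ℕ → ℕ → Prop) : Prop :=
  ∀ (S : Set ℕ) (N : Mon 2 d → ℤ) (L : Mon 2 d → ℕ) (T : ℝ), 0 < T → (∀ i, T * ((d : ℝ) + 2) ^ 2 ≤ L i) → ∀ X₀ : ℕ, 1 ≤ X₀ →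
    ∃ E : Finset (Mon 2 d → ℤ), E ⊆ box N L ∧ (E.card : ℝ) ≤ C * d * (X₀ : ℝ) ^ (-(ε / 2)) * ∏ i, (L i : ℝ) ∧
      ∀ t ∈ box N L, t ∉ E → ∀ Y Y' : ℕ, Y ≤ Y' → X₀ ≤ Y' → (Y' : ℝ) ≤ T ^ κ → P t S Y Y'

/-- The compact symplectic group. -/
def USp (g : ℕ) : Set (Matrix (Fin g ⊕ Fin g) (Fin g ⊕ Fin g) ℂ) :=
  {U | U.conjTranspose * U = 1 ∧ U.transpose * Matrix.J (Fin g) ℂ * U = Matrix.J (Fin g) ℂ}

/-- The Haar probability measure on `USp(2 g)`, as a measure on the Borel sets of the space of the matrices. -/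
structure IsHaar (g : ℕ) (μ : @Measure (Matrix (Fin g ⊕ Fin g) (Fin g ⊕ Fin g) ℂ) (borel _)) : Prop where
  prob : IsProbabilityMeasure μ
  supp : ∀ᵐ U ∂μ, U ∈ USp g
  inv : ∀ V ∈ USp g, @Measure.map _ _ (borel _) (borel _) (fun U => V * U) μ = μ

/-- The coefficient `Φ_i(U)` of `T ^ i` in `det (1 - T U)` (a real number for `U` in `USp(2 g)`). -/
noncomputable def Φ {g : ℕ} (i : ℕ) (U : Matrix (Fin g ⊕ Fin g) (Fin g ⊕ Fin g) ℂ) : ℝ := (U.charpolyRev.coeff i).re

lemma newton_eq (σ : ℕ → ℝ) (i : ℕ) : newton σ i = H35GS.coef σ i := by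
  induction i using Nat.strong_induction_on with
  | _ i ih =>
    rcases i with _ | i
    · rw [H35GS.coef_zero, newton]
    · rw [H35GS.coef_succ, newton]
      congr 2
      exact sum_congr rfl fun j _ => by rw [ih (i - j) (by omega)]

lemma haar_of {g : ℕ} {μ : @Measure (Matrix (Fin g ⊕ Fin g) (Fin g ⊕ Fin g) ℂ) (borel _)} (h : IsHaar g μ) : H35GS.Haar μ where
  prob := h.prob
  supp := by
    filter_upwards [h.supp] with U hU
    exact ⟨hU.1, hU.2⟩
  inv := fun V hV => h.inv V ⟨hV.un, hV.sy⟩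

lemma aeval_form {p k : ℕ} [Fact p.Prime] {d : ℕ} (t : Mon 2 d → ℤ) (x : Fin 3 → GaloisField p k) :
    aeval x (form t) = ∑ ν, algebraMap (ZMod p) (GaloisField p k) (t ν : ZMod p) * Pool.Agent.Y722.HS.mev x ν := by
  unfold Pool.Agent.Y722.HS.form Pool.Agent.Y722.HS.mev
  simp [map_sum, map_prod]

lemma s_eq {d : ℕ} (t : Mon 2 d → ℤ) (p j : ℕ) (hp : p.Prime) : s t p (j + 1) = H36PN.sv 1 d j p fun ν => (t ν : ZMod p) := by
  classical
  have : Fact p.Prime := ⟨hp⟩
  have h1 : (points p (j + 1) t : ℝ) = ∑ v : H36PN.NV (GaloisField p (j + 1)) 2,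
      H36PN.iz (∑ ν, algebraMap (ZMod p) (GaloisField p (j + 1)) (t ν : ZMod p) * Pool.Agent.Y722.HS.mev v.1 ν) := by
    unfold points
    rw [dif_pos hp]
    have h2 : Nat.card {P : ℙ (GaloisField p (j + 1)) (Fin 3 → GaloisField p (j + 1)) // aeval P.rep (form t) = 0} =
        Nat.card {P : ℙ (GaloisField p (j + 1)) (Fin 3 → GaloisField p (j + 1)) //
          ∑ ν, algebraMap (ZMod p) (GaloisField p (j + 1)) (t ν : ZMod p) * Pool.Agent.Y722.HS.mev P.rep ν = 0} :=
      Nat.card_congr (Equiv.subtypeEquivRight fun P => by rw [aeval_form])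
    rw [h2]
    have h3 := H36PN.card_zero (n := 2) (F := GaloisField p (j + 1)) fun ν : Mon 2 d => algebraMap (ZMod p) (GaloisField p (j + 1)) (t ν : ZMod p)
    rw [h3]
    have h4 : Nat.card {v : {v : Fin (2 + 1) → GaloisField p (j + 1) // H36PN.Nrm v} //
        ∑ ν, algebraMap (ZMod p) (GaloisField p (j + 1)) (t ν : ZMod p) * Pool.Agent.Y722.HS.mev v.1 ν = 0} =
        Nat.card {v : H36PN.NV (GaloisField p (j + 1)) 2 //
          ∑ ν, algebraMap (ZMod p) (GaloisField p (j + 1)) (t ν : ZMod p) * Pool.Agent.Y722.HS.mev v.1 ν = 0} := rfl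
    rw [h4, Nat.card_eq_fintype_card, Fintype.card_subtype, ← sum_boole]
    refine sum_congr rfl fun v _ => ?_
    unfold H36PN.iz
    split_ifs <;> rfl
  rw [H36PN.sv_eq]
  unfold s
  rw [h1, sum_range_succ, sum_range_one, pow_zero, pow_one, one_mul]
  congr 1
  ring

lemma map_form {d : ℕ} (t : Mon 2 d → ℤ) (p : ℕ) : map (Int.castRingHom (ZMod p)) (form t) = form fun ν => (t ν : ZMod p) := by
  unfold Pool.Agent.Y722.HS.form
  simp [map_sum, map_prod]

lemma primesIn_eq {d : ℕ} (t : Mon 2 d → ℤ) (S : Set ℕ) (Y Y' : ℕ) : primesIn t S Y Y' = H36PN.GP 1 d S Y Y' t := by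
  classical
  ext p
  have h1 : p ∈ primesIn t S Y Y' ↔ p ∈ Ioc Y Y' ∧ p ∈ S ∧ Good t p := mem_filter
  have h2 : p ∈ H36PN.GP 1 d S Y Y' t ↔ p ∈ H35GS.IV Y Y' ∧ p ∈ S ∧ H36PN.Sm p fun ν => (t ν : ZMod p) := mem_filter
  have h3 : p ∈ H35GS.IV Y Y' ↔ p ∈ Ioc Y Y' ∧ p.Prime := mem_filter
  have h4 : Good t p ↔ p.Prime ∧ H36PN.Sm p fun ν => (t ν : ZMod p) := by
    unfold Good H36PN.Sm
    refine and_congr Iff.rfl (forall_congr' fun _ => ?_)
    have h5 : map (algebraMap (ZMod p) (AlgebraicClosure (ZMod p))) (map (Int.castRingHom (ZMod p)) (form t)) =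
        map (algebraMap (ZMod p) (AlgebraicClosure (ZMod p))) (form fun ν => (t ν : ZMod p)) := congrArg _ (map_form t p)
    exact iff_of_eq (congrArg IsSmooth h5)
  rw [h1, h2, h3, h4]
  tauto

lemma prime_of {d : ℕ} {t : Mon 2 d → ℤ} {S : Set ℕ} {Y Y' p : ℕ} (h : p ∈ primesIn t S Y Y') : p.Prime := by
  classical
  have h1 : p ∈ primesIn t S Y Y' ↔ p ∈ Ioc Y Y' ∧ p ∈ S ∧ Good t p := mem_filter
  exact (h1.1 h).2.2.1

/-- Let `r ≥ 1`. For all `d ≥ d₀`, for almost all `t` and all Haar measures `μ` on `USp(2 g)`, `g = (d - 1) (d - 2) / 2`: if there are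
`n ≥ Y' ^ (1 / 2 + ε)` good primes of `S` in `(Y, Y']`, then for all real `x_1, …, x_r` the proportion of those of them with
`a_i(p) ≤ x_i` for all `i ≤ r` differs from the Haar measure of the set of the `U` with `Φ_i(U) ≤ x_i` for all `i ≤ r` by at most `ε`.
The numbers `d₀, κ, C` depend only on `r` and `ε`. -/
theorem result (r : ℕ) (ε : ℝ) (hε : 0 < ε) (hε1 : ε ≤ 1) :
    ∃ (d₀ : ℕ) (κ C : ℝ), 0 < κ ∧ ∀ d : ℕ, d₀ ≤ d →
      AlmostAll d ε κ C fun t S Y Y' => (Y' : ℝ) ^ (1 / 2 + ε) ≤ (primesIn t S Y Y').card →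
        ∀ μ, IsHaar ((d - 1) * (d - 2) / 2) μ → ∀ x : Fin r → ℝ,
          |({p ∈ primesIn t S Y Y' | ∀ i : Fin r, a t (i + 1) p ≤ x i}.card : ℝ) / (primesIn t S Y Y').card -
            (μ {U | ∀ i : Fin r, Φ (i + 1) U ≤ x i}).toReal| ≤ ε := by
  classical
  obtain ⟨d₀, κ, C, hκ, h⟩ := H36PN.main r ε hε hε1
  refine ⟨max d₀ 5, κ, C, hκ, fun d hd S N L T hT hL X₀ hX₀ => ?_⟩
  have hd5 : 5 ≤ d := (le_max_right _ _).trans hd
  have hg : d ≤ (d - 1) * (d - 2) / 2 := by
    obtain ⟨e, rfl⟩ : ∃ e, d = e + 5 := ⟨d - 5, by omega⟩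
    rw [Nat.le_div_iff_mul_le (by norm_num)]
    have h1 : e + 5 - 1 = e + 4 := by omega
    have h2 : e + 5 - 2 = e + 3 := by omega
    rw [h1, h2]
    nlinarith
  obtain ⟨E, hE1, hE2, hE3⟩ := h d ((d - 1) * (d - 2) / 2) ((le_max_left _ _).trans hd) hg S N L T hT (by
    intro i
    refine le_trans (mul_le_mul_of_nonneg_left ?_ hT.le) (hL i)
    have h1 : ((Fintype.card (Mon 2 d) : ℕ) : ℝ) ≤ ((d + 1) ^ 2 : ℕ) := by exact_mod_cast H36PN.card_Mon 2 d
    push_cast at h1
    nlinarith [(Nat.cast_nonneg d : (0 : ℝ) ≤ d)]) X₀ hX₀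
  refine ⟨E, hE1, hE2, fun t ht htE Y Y' hYY hY hYT hcard μ hμ x => ?_⟩
  rw [primesIn_eq] at hcard
  have h1 := hE3 t ht htE Y Y' hYY hY hYT hcard μ (haar_of hμ) x
  rw [← primesIn_eq] at h1
  have h2 : ({p ∈ primesIn t S Y Y' | ∀ i : Fin r, a t (i + 1) p ≤ x i} : Finset ℕ) =
      (primesIn t S Y Y').filter fun p => ∀ i : Fin r, H35GS.coef (fun m => H36PN.sv 1 d (m - 1) p fun i => (t i : ZMod p)) ((i : ℕ) + 1) ≤ x i := by
    refine filter_congr fun p hp => forall_congr' fun i => ?_
    unfold a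
    rw [newton_eq, H35GS.coef_congr r (fun m hm => ?_) _ (show (i : ℕ) + 1 ≤ r by omega)]
    rw [s_eq t p m (prime_of hp), Nat.add_sub_cancel]
  rw [h2]
  exact h1

end Pool.Agent.Results.MP_753a9c_nt.PlaneCurves
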