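import Pool.Agent.H35J.SE.MainS

/-!
# The law of Sato-Tate in all residue classes for almost all superelliptic curves of large genus

For fixed `a, b ≥ 1` let `C_t` be the curve `y ^ a = f_t (x ^ b)`, `f_t = X ^ D + t_(D-1) X ^ (D-1) + … + t_0`. It has the automorphisms
`(x, y) ↦ (ζ x, ζ' y)`, `ζ ^ b = ζ' ^ a = 1`, defined over the field of the roots of unity, and the Sato-Tate group of its Jacobian
is not connected in general: the law of the Euler factors depends on the residue class of the prime `p` modulo `a b`. We show that for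
almost all `t` the joint law of the coefficients `a_1(p), …, a_r(p)` of the normalised Euler factors over the good primes
`p ≡ h` modulo `a b` (or over the part of them in any given set) in any interval `(Y, Y']` that contains at least `Y' ^ (1 / 2 + ε)` of
them is up to `ε` the law of the coefficients of `exp (- ∑ G_i T ^ i / i)`, where the `G_i` are independent normal variables, `G_i` with
the variance `i gcd(b, h ^ i - 1) (gcd(a, h ^ i - 1) - 1)` and the mean `0` (`i` odd) or
`- gcd(b, h ^ (i / 2) + 1) (gcd(a, h ^ (i / 2) + 1) - 1)` (`i` even).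

Proof. The number of the points is a sum over the closed points of the line. The values of a random monic polynomial of degree `D` at
closed points of total degree at most `D` are independent and uniformly distributed; the points whose coordinate is a power of order `b`
are counted in all levels of the tower of the finite fields, and the number of the roots of order `a` of a random residue has
variance `gcd(a, q - 1) - 1` in the main level and mean `gcd(a, q + 1)` in the level of half degree. The Chinese remainder theorem gives the second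
moments of the sums over primes, the inequality of Rademacher and Menshov makes them uniform in the intervals, and the
method of moments gives the law.
-/

set_option autoImplicit false

namespace Pool.Agent.Results.MP_753a9c_nt.SuperellipticCurves

open Finset Polynomial MeasureTheory ProbabilityTheory

/-- The polynomial `f_t = X ^ D + t_(D-1) X ^ (D-1) + … + t_0` over the ring `R`. -/
noncomputable def poly (R : Type) [CommRing R] {D : ℕ} (t : Fin D → ℤ) : R[X] :=
  X ^ D + ∑ i : Fin D, C (t i : R) * X ^ (i : ℕ)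

/-- The number of the points over the field `F` with `p ^ k` elements (`p` a prime number) of the smooth projective curve with the affine
equation `y ^ a = f_t (x ^ b)`: the solutions of the equation, and the points at infinity, which correspond to the `z ∈ F` with
`z ^ gcd(a, b D) = 1`. -/
noncomputable def points (a b p k : ℕ) {D : ℕ} (t : Fin D → ℤ) : ℕ :=
  if h : p.Prime then
    haveI : Fact p.Prime := ⟨h⟩
    Nat.card {P : GaloisField p k × GaloisField p k // P.2 ^ a = (poly (GaloisField p k) t).eval (P.1 ^ b)} +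
      Nat.card {z : GaloisField p k // z ^ Nat.gcd a (b * D) = 1}
  else 0

/-- `p` is a prime number that does not divide `a`, and `f_t (X ^ b)` is squarefree modulo `p`, so that the curve is smooth modulo `p`. -/
def Good (a b : ℕ) {D : ℕ} (t : Fin D → ℤ) (p : ℕ) : Prop := p.Prime ∧ ¬ p ∣ a ∧ Squarefree ((poly (ZMod p) t).comp (X ^ b))

/-- The trace `s_k(p)` of the `k`-th power of the normalised Frobenius: if the normalised Euler factor is `∏ (1 - α_j T)`, this is
`∑ α_j ^ k = (p ^ k + 1 - #C(F_(p ^ k))) / p ^ (k / 2)`. -/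
noncomputable def s (a b : ℕ) {D : ℕ} (t : Fin D → ℤ) (p k : ℕ) : ℝ := ((p : ℝ) ^ k + 1 - points a b p k t) / Real.sqrt p ^ k

/-- The coefficients of the polynomial `∏ (1 - α_j T)` in terms of the power sums `σ_k = ∑ α_j ^ k`, by Newton's identities
`(i + 1) a_(i+1) = - ∑_(j ≤ i) σ_(j+1) a_(i-j)`, `a_0 = 1` (the coefficients of `exp (- ∑ σ_k T ^ k / k)`). -/
noncomputable def newton (σ : ℕ → ℝ) : ℕ → ℝ
  | 0 => 1
  | i + 1 => -(∑ j : Fin (i + 1), σ (j + 1) * newton σ (i - j)) / (i + 1)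

/-- The coefficient `a_i(p)` of the normalised Euler factor of the Jacobian at the good prime `p`. -/
noncomputable def coef (a b : ℕ) {D : ℕ} (t : Fin D → ℤ) (i p : ℕ) : ℝ := newton (s a b t p) i

open Classical in
/-- The good primes `p ≡ h` modulo `a b` in the set `S` with `Y < p ≤ Y'`. -/
noncomputable def primesIn (a b h : ℕ) {D : ℕ} (t : Fin D → ℤ) (S : Set ℕ) (Y Y' : ℕ) : Finset ℕ :=
  (Ioc Y Y').filter fun p => p ∈ S ∧ p ≡ h [MOD a * b] ∧ Good a b t p

/-- The integer vectors `t` with `N i ≤ t i < N i + L i`. -/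
noncomputable def box {D : ℕ} (N : Fin D → ℤ) (L : Fin D → ℕ) : Finset (Fin D → ℤ) := Fintype.piFinset fun i => Ico (N i) (N i + L i)

/-- For all sets `S` of primes, all boxes with sides at least `T (D + 1)` and all `X₀ ≥ 1` the vectors `t` of the box have the property
`P t S Y Y'` for all `Y ≤ Y'` with `X₀ ≤ Y' ≤ T ^ κ`, with at most `C X₀ ^ (-ε / 2)` times the volume of the box exceptions. -/
def AlmostAll (D : ℕ) (ε κ C : ℝ) (P : (Fin D → ℤ) → Set ℕ → ℕ → ℕ → Prop) : Prop :=
  ∀ (S : Set ℕ) (N : Fin D → ℤ) (L : Fin D → ℕ) (T : ℝ), 0 < T → (∀ i, T * (D + 1) ≤ L i) → ∀ X₀ : ℕ, 1 ≤ X₀ →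
    ∃ E : Finset (Fin D → ℤ), E ⊆ box N L ∧ (E.card : ℝ) ≤ C * (X₀ : ℝ) ^ (-(ε / 2)) * ∏ i, (L i : ℝ) ∧
      ∀ t ∈ box N L, t ∉ E → ∀ Y Y' : ℕ, Y ≤ Y' → X₀ ≤ Y' → (Y' : ℝ) ≤ T ^ κ → P t S Y Y'

/-- The variance `i gcd(b, h ^ i - 1) (gcd(a, h ^ i - 1) - 1)`. -/
def var (a b h i : ℕ) : ℕ := i * Nat.gcd b (h ^ i - 1) * (Nat.gcd a (h ^ i - 1) - 1)

/-- Minus the mean: `gcd(b, h ^ (i / 2) + 1) (gcd(a, h ^ (i / 2) + 1) - 1)` for even `i`, and `0` for odd `i`. -/
def men (a b h i : ℕ) : ℕ := if Even i then Nat.gcd b (h ^ (i / 2) + 1) * (Nat.gcd a (h ^ (i / 2) + 1) - 1) else 0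

/-- The joint law of independent normal variables `G_1, …, G_r`, `G_i` with the mean `- men a b h i` and the variance `var a b h i`
(numbered from `0` in Lean). -/
noncomputable def normal (a b h r : ℕ) : Measure (Fin r → ℝ) :=
  Measure.pi fun i : Fin r => gaussianReal (-(men a b h (i + 1) : ℝ)) (var a b h (i + 1) : ℕ)

/-- The sequence with the terms `x_1, …, x_r` at the places `1, …, r`. -/
noncomputable def seq {r : ℕ} (x : Fin r → ℝ) (k : ℕ) : ℝ := if h : k - 1 < r then x ⟨k - 1, h⟩ else 0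

lemma newton_eq (σ : ℕ → ℝ) (i : ℕ) : newton σ i = H35GS.coef σ i := by
  induction i using Nat.strong_induction_on with
  | _ i ih =>
    rcases i with _ | i
    · rw [H35GS.coef_zero, newton]
    · rw [H35GS.coef_succ, newton]
      congr 2
      exact sum_congr rfl fun j _ => by rw [ih (i - j) (by omega)]

lemma eval_poly (p k : ℕ) [Fact p.Prime] {D : ℕ} (t : Fin D → ℤ) (x : GaloisField p k) :
    (poly (GaloisField p k) t).eval x = aeval x (H35GS.fpol fun i => (t i : ZMod p)) := by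
  unfold poly H35GS.fpol
  simp [eval_finsetSum]

lemma s_eq (a b : ℕ) {D : ℕ} (t : Fin D → ℤ) (p j : ℕ) (hp : p.Prime) :
    s a b t p (j + 1) = H35GS.Se.sv a b D j p fun i => (t i : ZMod p) := by
  classical
  have : Fact p.Prime := ⟨hp⟩
  obtain ⟨f, hf⟩ : ∃ f : (ZMod p)[X], f = H35GS.fpol fun i => (t i : ZMod p) := ⟨_, rfl⟩
  have h1 : (Nat.card {P : GaloisField p (j + 1) × GaloisField p (j + 1) // P.2 ^ a = (poly (GaloisField p (j + 1)) t).eval (P.1 ^ b)} : ℝ) =
      ∑ x : GaloisField p (j + 1), H35GS.Se.cnt b x * H35GS.Se.cnt a (aeval x f) := by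
    have h2 : Nat.card {P : GaloisField p (j + 1) × GaloisField p (j + 1) // P.2 ^ a = (poly (GaloisField p (j + 1)) t).eval (P.1 ^ b)} =
        ∑ x : GaloisField p (j + 1), Nat.card {y : GaloisField p (j + 1) // y ^ a = (poly (GaloisField p (j + 1)) t).eval (x ^ b)} := by
      rw [← Nat.card_sigma]
      exact Nat.card_congr ⟨fun P => ⟨P.1.1, ⟨P.1.2, P.2⟩⟩, fun P => ⟨(P.1, P.2.1), P.2.2⟩, fun _ => rfl, fun _ => rfl⟩
    rw [h2, H35GS.Se.sum_cnt_mul b fun w : GaloisField p (j + 1) => H35GS.Se.cnt a (aeval w f)]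
    push_cast
    refine sum_congr rfl fun x _ => ?_
    rw [eval_poly, hf]
    rfl
  have h3 : ∑ x : GaloisField p (j + 1), H35GS.Se.cnt b x * (H35GS.Se.cnt a (aeval x f) - 1) =
      ∑ x : GaloisField p (j + 1), H35GS.Se.cnt b x * H35GS.Se.cnt a (aeval x f) - (p : ℝ) ^ (j + 1) := by
    have h4 := H35GS.Se.sum_cnt (F := GaloisField p (j + 1)) b
    rw [H35GS.card_GF (j + 1) (Nat.succ_ne_zero j)] at h4
    push_cast at h4
    rw [← h4, ← sum_sub_distrib]
    exact sum_congr rfl fun x _ => by ring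
  rw [H35GS.Se.sv_eq, ← hf, h3]
  unfold s points
  rw [dif_pos hp]
  push_cast
  rw [h1]
  congr 1
  unfold H35GS.Se.cnt
  ring

lemma primesIn_eq (a b h : ℕ) {D : ℕ} (t : Fin D → ℤ) (S : Set ℕ) (Y Y' : ℕ) : primesIn a b h t S Y Y' = H35GS.Se.GP a b h D S Y Y' t := by
  classical
  ext p
  have h1 : p ∈ primesIn a b h t S Y Y' ↔ p ∈ Ioc Y Y' ∧ p ∈ S ∧ p ≡ h [MOD a * b] ∧ Good a b t p := mem_filter
  have h2 : p ∈ H35GS.Se.GP a b h D S Y Y' t ↔ p ∈ H35GS.IV Y Y' ∧ p ∈ S ∧ (p ≡ h [MOD a * b] ∧ ¬ p ∣ a) ∧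
      Squarefree ((H35GS.fpol fun i => (t i : ZMod p)).comp (X ^ b)) := mem_filter
  have h3 : p ∈ H35GS.IV Y Y' ↔ p ∈ Ioc Y Y' ∧ p.Prime := mem_filter
  have h4 : Good a b t p ↔ p.Prime ∧ ¬ p ∣ a ∧ Squarefree ((H35GS.fpol fun i => (t i : ZMod p)).comp (X ^ b)) := Iff.rfl
  rw [h1, h2, h3, h4]
  tauto

lemma prime_of {a b h D : ℕ} {t : Fin D → ℤ} {S : Set ℕ} {Y Y' p : ℕ} (hp : p ∈ primesIn a b h t S Y Y') : p.Prime := by
  classical
  have h1 : p ∈ primesIn a b h t S Y Y' ↔ p ∈ Ioc Y Y' ∧ p ∈ S ∧ p ≡ h [MOD a * b] ∧ Good a b t p := mem_filter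
  exact (h1.1 hp).2.2.2.1

/-- **The law.** Let `a, b, h, r ≥ 1` and `0 < ε ≤ 1`. There are `D₀`, `κ > 0` and `C` such that for all `D ≥ D₀`, for almost all `t`: if at least
`Y' ^ (1 / 2 + ε)` of the primes `p ≡ h` modulo `a b` of `S` in `(Y, Y']` are good, then the mean of `F (a_1(p), …, a_r(p))` over them
differs by at most `ε` from the mean of `F (A_1, …, A_r)`, `∑ A_i T ^ i = exp (- ∑ G_i T ^ i / i)`, for all functions `F` with values in
`[-1, 1]` and Lipschitz constant at most `1` (for the maximum norm). -/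
theorem result (a b h r : ℕ) (ha : 1 ≤ a) (hb : 1 ≤ b) (hh : 1 ≤ h) (ε : ℝ) (hε : 0 < ε) (hε1 : ε ≤ 1) :
    ∃ (D₀ : ℕ) (κ C : ℝ), 0 < κ ∧ ∀ D : ℕ, D₀ ≤ D →
      AlmostAll D ε κ C fun t S Y Y' => (Y' : ℝ) ^ (1 / 2 + ε) ≤ (primesIn a b h t S Y Y').card →
        ∀ F : (Fin r → ℝ) → ℝ, LipschitzWith 1 F → (∀ x, |F x| ≤ 1) →
          |(∑ p ∈ primesIn a b h t S Y Y', F fun i => coef a b t (i + 1) p) / (primesIn a b h t S Y Y').card -
            ∫ x, F (fun i : Fin r => newton (seq x) (i + 1)) ∂(normal a b h r)| ≤ ε := by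
  classical
  obtain ⟨D₀, κ, C, hκ, H⟩ := H35GS.Se.main a b h (by omega) (by omega) hh r (fun x : Fin r → ℝ => H35GS.AA x) H35GS.AA_cont ε hε hε1
  refine ⟨D₀, κ, C, hκ, fun D hD S N L T hT hL X₀ hX₀ => ?_⟩
  obtain ⟨E, hE1, hE2, hE3⟩ := H D hD S N L T hT hL X₀ hX₀
  refine ⟨E, hE1, hE2, fun t ht htE Y Y' hYY hY hYT hcard F hF hF1 => ?_⟩
  rw [primesIn_eq] at hcard
  have h1 := hE3 t ht htE Y Y' hYY hY hYT hcard F hF hF1
  rw [← primesIn_eq] at h1
  have h2 : ∑ p ∈ primesIn a b h t S Y Y', F (fun i : Fin r => coef a b t (i + 1) p) =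
      ∑ p ∈ primesIn a b h t S Y Y', F (H35GS.AA fun i : Fin r => H35GS.Se.sv a b D i p fun i => (t i : ZMod p)) := by
    refine sum_congr rfl fun p hp => congrArg F ?_
    funext i
    unfold coef H35GS.AA
    rw [newton_eq]
    refine H35GS.coef_congr ((i : ℕ) + 1) (fun m hm => ?_) _ le_rfl
    have hm2 : m < r := by omega
    have h3 := H35GS.exs_succ (fun i : Fin r => H35GS.Se.sv a b D i p fun i => (t i : ZMod p)) ⟨m, hm2⟩
    rw [s_eq a b t p m (prime_of hp)]
    exact h3.symm
  have h3 : (fun x : Fin r → ℝ => F (fun i : Fin r => newton (seq x) (i + 1))) = fun x => F (H35GS.AA x) := by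
    funext x
    refine congrArg F ?_
    funext i
    unfold H35GS.AA
    rw [newton_eq]
    rfl
  rw [h2, h3]
  exact h1

end Pool.Agent.Results.MP_753a9c_nt.SuperellipticCurves
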